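import Pool.Agent.H95.Qp3

set_option autoImplicit false

open Pool.Agent.H95.QpDefs

theorem Pool.Agent.Results.MP_c54930_gt.DiamondCex.result (h : Diamond) :
    ∃ (X : Type) (_ : TopologicalSpace X), Uncountable X ∧ FirstCountableTopology X ∧ T3Space X ∧
      Submetrizable X ∧ FrechetUrysohnSpace (Qp X) :=
  Pool.Agent.H95.Qp3.main h
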